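import Pool.Agent.MP_48b1c3_nt.H91.Defs

/-! The norm form modulo primes, the dual lattice and the algebra of characters. -/

namespace Pool.Agent.MP_48b1c3_nt.H91

open Finset NumberField H54 Filter
open scoped ContDiff Topology

variable {K : Type} [Field K] [NumberField K]

theorem norm_tmul (n : ℕ) (a : 𝓞 K) :
    Algebra.norm (ZMod n) ((1 : ZMod n) ⊗ₜ[ℤ] a) = (nm a : ZMod n) := by
  have h := LinearMap.det_baseChange (A := ZMod n) (Algebra.lmul ℤ (𝓞 K) a)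
  rw [Algebra.baseChange_lmul] at h
  exact h

theorem norm_tr_tmul (n : ℕ) (a : 𝓞 K) :
    Algebra.trace (ZMod n) _ ((1 : ZMod n) ⊗ₜ[ℤ] a) = (Algebra.trace ℤ _ a : ZMod n) := by
  have h := LinearMap.trace_baseChange (Algebra.lmul ℤ (𝓞 K) a) (ZMod n)
  rw [Algebra.baseChange_lmul] at h
  exact h

theorem norm_zero_iff (n : ℕ) (a : 𝓞 K) : (1 : ZMod n) ⊗ₜ[ℤ] a = 0 ↔ (n : 𝓞 K) ∣ a := by
  constructor
  · intro h
    have h1 : ∀ i, (n : ℤ) ∣ (RingOfIntegers.basis K).repr a i := fun i => by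
      have h2 := Module.Basis.baseChange_repr_tmul (ZMod n) (RingOfIntegers.basis K) 1 a i
      rw [h, map_zero, Finsupp.zero_apply, zsmul_one] at h2
      exact (ZMod.intCast_zmod_eq_zero_iff_dvd _ _).1 h2.symm
    rw [← (RingOfIntegers.basis K).sum_repr a]
    refine dvd_sum fun i _ => ?_
    rw [zsmul_eq_mul]
    exact Dvd.dvd.mul_right (by simpa using map_dvd (Int.castRingHom (𝓞 K)) (h1 i)) _
  · rintro ⟨c, rfl⟩
    rw [← nsmul_eq_mul, ← natCast_zsmul, ← TensorProduct.smul_tmul, zsmul_one, Int.cast_natCast,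
      ZMod.natCast_self, TensorProduct.zero_tmul]

theorem nm_congr {m : ℤ} {a b : 𝓞 K} (h : (m : 𝓞 K) ∣ a - b) : m ∣ nm a - nm b := by
  have h1 : ((m.natAbs : ℕ) : 𝓞 K) ∣ a - b := by
    have h2 : ((m.natAbs : ℤ) : 𝓞 K) ∣ (m : 𝓞 K) :=
      map_dvd (Int.castRingHom (𝓞 K)) (Int.natAbs_dvd.2 dvd_rfl)
    rw [Int.cast_natCast] at h2
    exact h2.trans h
  have h3 := (norm_zero_iff _ _).2 h1
  rw [TensorProduct.tmul_sub, sub_eq_zero] at h3
  rw [← Int.natAbs_dvd, ← ZMod.intCast_zmod_eq_zero_iff_dvd, Int.cast_sub, ← norm_tmul,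
    ← norm_tmul, h3, sub_self]

theorem nm_intCast (m : ℤ) : nm (m : 𝓞 K) = m ^ dg K := by
  have h := Algebra.norm_algebraMap (R := ℤ) (S := 𝓞 K) m
  rwa [RingOfIntegers.rank] at h

theorem cop_iff {q : ℕ} {I : Ideal (𝓞 K)} : Cop q I ↔ (Ideal.absNorm I).Coprime q := by
  constructor
  · intro h
    obtain ⟨i, hi, j, hj, e⟩ := Submodule.mem_sup.1 ((Ideal.eq_top_iff_one _).1 h)
    have h1 : ((q : ℤ) : 𝓞 K) ∣ 1 - i := by
      rw [← e, add_sub_cancel_left, Int.cast_natCast]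
      exact Ideal.mem_span_singleton.1 hj
    obtain ⟨c, hc⟩ := nm_congr h1
    rw [nm, map_one] at hc
    have h2 : IsCoprime (nm i) (q : ℤ) := ⟨1, c, by linear_combination -hc⟩
    have h3 : Ideal.absNorm I ∣ (nm i).natAbs := by
      rw [← Ideal.absNorm_span_singleton]
      exact Ideal.absNorm_dvd_absNorm_of_le ((Ideal.span_singleton_le_iff_mem _).2 hi)
    exact Nat.Coprime.coprime_dvd_left h3 (Int.isCoprime_iff_gcd_eq_one.1 h2)
  · intro h
    obtain ⟨a, b, e⟩ := (Nat.isCoprime_iff_coprime.2 h).map (Int.castRingHom (𝓞 K))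
    rw [Cop, Ideal.eq_top_iff_one, ← e]
    refine add_mem (Ideal.mem_sup_left (Ideal.mul_mem_left _ _ ?_))
      (Ideal.mem_sup_right (Ideal.mul_mem_left _ _ ?_))
    · simpa using Ideal.absNorm_mem I
    · simp [Ideal.mem_span_singleton]

variable (K) in
theorem exists_dual : ∃ β : (Ix K → ℤ) →ₗ[ℤ] 𝓞 K, Dual β := by
  classical
  let T := Algebra.traceMatrix ℤ (RingOfIntegers.basis K)
  have hT : T.det = NumberField.discr K := by
    rw [← NumberField.discr_eq_discr K (RingOfIntegers.basis K)]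
    rfl
  have h1 : ∀ c a : Ix K → ℤ,
      Algebra.trace ℤ (𝓞 K) (el K c * el K a) = ∑ j, a j * T.mulVec c j := fun c a => by
    simp only [el, Module.Basis.equivFun_symm_apply, sum_mul, mul_sum, map_sum, smul_mul_smul_comm,
      map_smul, smul_eq_mul, Matrix.mulVec, dotProduct, T, Algebra.traceMatrix_apply,
      Algebra.traceForm_apply]
    refine sum_congr rfl fun j _ => sum_congr rfl fun i _ => ?_
    rw [mul_comm (RingOfIntegers.basis K j)]
    ring
  refine ⟨(el K).toLinearMap ∘ₗ ((NumberField.discr K).sign • T.adjugate.mulVecLin),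
    fun h a => ?_⟩
  simp only [LinearMap.comp_apply, LinearEquiv.coe_coe, LinearMap.smul_apply,
    Matrix.mulVecLin_apply]
  rw [h1, Matrix.mulVec_smul, Matrix.mulVec_mulVec, Matrix.mul_adjugate, Matrix.smul_mulVec,
    Matrix.one_mulVec, hT, smul_smul, Int.sign_mul_self_eq_natAbs, mul_sum]
  refine sum_congr rfl fun i _ => ?_
  rw [Pi.smul_apply, smul_eq_mul, DD]
  ring

theorem Dual.inj {β : (Ix K → ℤ) →ₗ[ℤ] 𝓞 K} (h : Dual β) : Function.Injective β := by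
  classical
  refine (injective_iff_map_eq_zero β).2 fun c hc => funext fun i => ?_
  have h1 := h c (Pi.single i 1)
  rw [hc, zero_mul, map_zero] at h1
  simpa [Pi.single_apply, (DD_pos K).ne'] using h1

theorem norm_fin {F A : Type} [Field F] [CommRing A] [Algebra F A] [Finite A] [IsReduced A]
    {b : A} (hb : ¬ IsUnit b) (t : F) : ∃ u : A, (u - 1) * b = 0 ∧ Algebra.norm F u = t := by
  have := IsArtinianRing.isSemisimpleRing_of_isReduced A
  obtain ⟨m, hm, hbm⟩ := exists_max_ideal_of_mem_nonunits (mem_nonunits_iff.2 hb)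
  obtain ⟨J, hJ⟩ := exists_isCompl (α := Submodule A A) m
  have h0 : ∀ j ∈ J, ∀ x ∈ m, j * x = 0 := fun j hj x hx =>
    (Submodule.disjoint_def.1 hJ.disjoint) _ (Ideal.mul_mem_left _ _ hx)
      (Ideal.mul_mem_right _ _ hj)
  letI := Ideal.Quotient.field m
  have : Finite (A ⧸ m) := Finite.of_surjective _ Ideal.Quotient.mk_surjective
  obtain ⟨γ, hγ⟩ := FiniteField.norm_surjective F (A ⧸ m) t
  obtain ⟨g, rfl⟩ := Ideal.Quotient.mk_surjective γ
  obtain ⟨x, hx, j, hj, e⟩ := Submodule.mem_sup.1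
    (show g - 1 ∈ m ⊔ J from hJ.sup_eq_top ▸ Submodule.mem_top)
  refine ⟨1 + j, by rw [add_sub_cancel_left, h0 j hj b hbm], ?_⟩
  have e1 : Ideal.Quotient.mk m (1 + j) = Ideal.Quotient.mk m g := by
    rw [Ideal.Quotient.eq, show 1 + j - g = -x by linear_combination e]
    exact neg_mem hx
  have he : m.restrictScalars F ≤ (m.restrictScalars F).comap (Algebra.lmul F A (1 + j)) :=
    fun y hy => Ideal.mul_mem_left m _ hy
  have d1 : LinearMap.restrict (Algebra.lmul F A (1 + j)) he = LinearMap.id := by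
    refine LinearMap.ext fun y => Subtype.ext ?_
    change (1 + j) * y.1 = y.1
    rw [add_mul, one_mul, h0 j hj _ y.2, add_zero]
  have d2 := LinearMap.det_conj (Submodule.mapQ _ _ (Algebra.lmul F A (1 + j)) he)
    (Submodule.Quotient.restrictScalarsEquiv F m)
  rw [Algebra.norm_apply, ← hγ, ← e1, Algebra.norm_apply]
  refine (LinearMap.det_eq_det_mul_det _ _ he).trans ?_
  rw [d1, LinearMap.det_id, one_mul, ← d2]
  congr 1
  refine LinearMap.ext fun y => ?_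
  obtain ⟨y, rfl⟩ := Ideal.Quotient.mk_surjective y
  rfl

theorem norm_reduced {p : ℕ} (hp : p.Prime) (hD : ¬ p ∣ DD K) :
    IsReduced (TensorProduct ℤ (ZMod p) (𝓞 K)) := by
  classical
  have := Fact.mk hp
  obtain ⟨β, hβ⟩ := exists_dual K
  refine ⟨fun x hx => ?_⟩
  obtain ⟨a, rfl⟩ := Algebra.TensorProduct.includeRight_surjective (R := ℤ) (S := ZMod p) (𝓞 K)
    (ZMod.ringHom_surjective _) x
  obtain ⟨c, rfl⟩ := (el K).surjective a
  have h1 : ∀ i, (p : ℤ) ∣ c i := fun i => by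
    have h2 := (Algebra.isNilpotent_trace_of_isNilpotent (R := ZMod p)
      ((Commute.all ((1 : ZMod p) ⊗ₜ[ℤ] β (Pi.single i 1)) _).isNilpotent_mul_left hx)).eq_zero
    rw [Algebra.TensorProduct.includeRight_apply, Algebra.TensorProduct.tmul_mul_tmul, one_mul,
      norm_tr_tmul, hβ, ZMod.intCast_zmod_eq_zero_iff_dvd] at h2
    have h3 := ((Nat.prime_iff_prime_int.1 hp).dvd_or_dvd h2).resolve_left
      (by exact_mod_cast hD)
    simpa [Pi.single_apply] using h3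
  choose d hd using h1
  refine (norm_zero_iff p _).2 ⟨el K d, ?_⟩
  rw [← nsmul_eq_mul, ← map_nsmul]
  congr 1
  funext i
  simp [hd i]

theorem norm_loc {p : ℕ} (hp : p.Prime) (hD : ¬ p ∣ DD K) {β : 𝓞 K} (hβ : (p : ℤ) ∣ nm β) {t : ℤ}
    (ht : ¬ (p : ℤ) ∣ t) : ∃ u : 𝓞 K, (p : 𝓞 K) ∣ (u - 1) * β ∧ (p : ℤ) ∣ nm u - t := by
  have := Fact.mk hp
  have := norm_reduced hp hD
  have : Finite (TensorProduct ℤ (ZMod p) (𝓞 K)) := Module.finite_of_finite (ZMod p)
  have hb : ¬ IsUnit ((1 : ZMod p) ⊗ₜ[ℤ] β) := fun h => by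
    have h1 := h.map (Algebra.norm (ZMod p))
    rw [norm_tmul, (ZMod.intCast_zmod_eq_zero_iff_dvd _ _).2 hβ] at h1
    exact not_isUnit_zero h1
  obtain ⟨x, h1, h2⟩ := norm_fin hb (t : ZMod p)
  obtain ⟨u, rfl⟩ := Algebra.TensorProduct.includeRight_surjective (R := ℤ) (S := ZMod p) (𝓞 K)
    (ZMod.ringHom_surjective _) x
  refine ⟨u, (norm_zero_iff p _).1 ?_, ?_⟩
  · rw [← h1]
    exact (map_mul (Algebra.TensorProduct.includeRight (R := ℤ) (A := ZMod p)) _ _).trans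
      (by rw [map_sub, map_one]; rfl)
  · rw [← ZMod.intCast_zmod_eq_zero_iff_dvd, Int.cast_sub, ← norm_tmul, sub_eq_zero]
    exact h2

theorem norm_large (a γ : 𝓞 K) (h : nm γ ≠ 0) : ∃ t : ℕ, 0 < nm γ * nm (a + (t : 𝓞 K) * γ) := by
  classical
  let L : 𝓞 K → Matrix (Ix K) (Ix K) ℝ := fun x =>
    (Int.castRingHom ℝ).mapMatrix (Algebra.leftMulMatrix (RingOfIntegers.basis K) x)
  have hL : ∀ x, (L x).det = nm x := fun x => by
    rw [nm, Algebra.norm_eq_matrix_det (RingOfIntegers.basis K), ← RingHom.map_det]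
    rfl
  have hc : Continuous fun ε : ℝ => (nm γ : ℝ) * (ε • L a + L γ).det := by fun_prop
  have h1 := (hc.tendsto 0).comp tendsto_one_div_add_atTop_nhds_zero_nat
  rw [zero_smul, zero_add, hL] at h1
  obtain ⟨t, ht⟩ := (h1.eventually (lt_mem_nhds (mul_self_pos.2 (Int.cast_ne_zero.2 h)))).exists
  refine ⟨t + 1, ?_⟩
  have h2 : L (a + ((t + 1 : ℕ) : 𝓞 K) * γ) =
      ((t : ℝ) + 1) • ((1 / ((t : ℝ) + 1)) • L a + L γ) := by
    rw [smul_add, smul_smul, mul_one_div_cancel (by positivity), one_smul, ← nsmul_eq_mul,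
      ← Nat.cast_succ, Nat.cast_smul_eq_nsmul]
    simp only [L, map_add, map_nsmul]
  have h3 : (0 : ℝ) < nm γ * (L (a + ((t + 1 : ℕ) : 𝓞 K) * γ)).det := by
    rw [h2, Matrix.det_smul, mul_left_comm]
    exact mul_pos (by positivity) ht
  rw [hL] at h3
  exact_mod_cast h3

theorem norm_nat_pos {N : ℕ} (hN : 0 < N) : 0 < nm (N : 𝓞 K) := by
  rw [← Int.cast_natCast, nm_intCast]
  positivity

theorem exists_pos (α : 𝓞 K) {N : ℕ} (hN : 0 < N) :
    ∃ α' : 𝓞 K, (N : 𝓞 K) ∣ α' - α ∧ 0 < nm α' := by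
  obtain ⟨t, ht⟩ := norm_large α N (norm_nat_pos hN).ne'
  exact ⟨α + t * N, ⟨t, by ring⟩, (mul_pos_iff_of_pos_left (norm_nat_pos hN)).1 ht⟩

theorem norm_neg_field (hK : ∃ w : InfinitePlace K, w.IsReal) :
    ∃ z : K, Algebra.norm ℚ z < 0 := by
  obtain ⟨w, hw⟩ := hK
  by_contra hc
  push Not at hc
  let pb := Field.powerBasisOfFiniteOfSeparable ℚ K
  have h1 : ∀ x : ℚ, 0 ≤ Polynomial.aeval (x : ℝ) (minpoly ℚ pb.gen) := fun x => by
    have h2 := hc (algebraMap ℚ K x - pb.gen)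
    rw [Algebra.norm_eq_matrix_det pb.basis, map_sub, AlgHom.commutes] at h2
    have h3 := Matrix.eval_charpoly (Algebra.leftMulMatrix pb.basis pb.gen) x
    rw [charpoly_leftMulMatrix] at h3
    have h4 : 0 ≤ (minpoly ℚ pb.gen).eval x := h3 ▸ h2
    have h5 := Polynomial.aeval_algebraMap_apply_eq_algebraMap_eval (A := ℝ) x (minpoly ℚ pb.gen)
    rw [eq_ratCast, eq_ratCast] at h5
    rw [h5]
    exact_mod_cast h4
  have h6 : ∀ x : ℝ, 0 ≤ Polynomial.aeval x (minpoly ℚ pb.gen) := fun x =>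
    Rat.denseRange_cast.induction_on x
      (isClosed_le continuous_const (Polynomial.continuous_aeval _)) h1
  have h7 : Polynomial.aeval (InfinitePlace.embedding_of_isReal hw pb.gen) (minpoly ℚ pb.gen) =
      0 := by
    have := Polynomial.aeval_algHom_apply (InfinitePlace.embedding_of_isReal hw).toRatAlgHom
      pb.gen (minpoly ℚ pb.gen)
    rw [minpoly.aeval, map_zero] at this
    exact this
  refine (Algebra.IsSeparable.isSeparable ℚ pb.gen).aeval_derivative_ne_zero h7 ?_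
  refine IsLocalMin.hasDerivAt_eq_zero (Eventually.of_forall fun x => ?_)
    (Polynomial.hasDerivAt_aeval _ _)
  exact h7.le.trans (h6 x)

theorem norm_neg_int (hK : ∃ w : InfinitePlace K, w.IsReal) : ∃ γ : 𝓞 K, nm γ < 0 := by
  obtain ⟨z, hz⟩ := norm_neg_field hK
  obtain ⟨d, hd, hi⟩ := ((IsFractionRing.isAlgebraic_iff ℤ ℚ K).2
    (Algebra.IsAlgebraic.isAlgebraic z)).exists_integral_multiple
  refine ⟨d * ⟨d • z, hi⟩, ?_⟩
  have h1 : ((d * ⟨d • z, hi⟩ : 𝓞 K) : K) = algebraMap ℚ K (d ^ 2) * z := by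
    change algebraMap (𝓞 K) K _ = _
    rw [map_mul, map_intCast, map_pow, map_intCast, sq, mul_assoc, ← zsmul_eq_mul z]
    rfl
  have h2 := Algebra.coe_norm_int (d * ⟨d • z, hi⟩ : 𝓞 K)
  rw [h1, map_mul (Algebra.norm ℚ), Algebra.norm_algebraMap] at h2
  have h3 : (0 : ℚ) < (d ^ 2) ^ Module.finrank ℚ K := by positivity
  have h4 := mul_neg_of_pos_of_neg h3 hz
  rw [← h2] at h4
  exact_mod_cast h4

theorem exists_neg (hK : ∃ w : InfinitePlace K, w.IsReal) {N : ℕ} (hN : 0 < N) :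
    ∃ α : 𝓞 K, (N : 𝓞 K) ∣ α - 1 ∧ nm α < 0 := by
  obtain ⟨γ, hγ⟩ := norm_neg_int hK
  have h1 : nm ((N : 𝓞 K) * γ) < 0 := by
    rw [nm, map_mul]
    exact mul_neg_of_pos_of_neg (norm_nat_pos hN) hγ
  obtain ⟨t, ht⟩ := norm_large 1 _ h1.ne
  exact ⟨1 + t * (N * γ), ⟨t * γ, by ring⟩, neg_of_mul_pos_right ht h1.le⟩

theorem PF.mono {q q' : ℕ} {f : Ideal (𝓞 K) → ℂ} (h : PF q f) (hq : q ∣ q') (h0 : 0 < q') :
    PF q' f :=
  ⟨h0, h.le, fun a a' b α α' h1 h2 h3 => h.per a a' b α α' h1 h2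
    ((Nat.cast_dvd_cast (Nat.mul_dvd_mul_right hq _)).trans h3)⟩

theorem norm_pf_mul {q : ℕ} {f g : Ideal (𝓞 K) → ℂ} (hf : PF q f) (hg : PF q g) :
    PF q (f * g) := by
  refine ⟨hf.pos, fun I => ?_, fun a a' b α α' h1 h2 h3 h4 => ?_⟩
  · rw [Pi.mul_apply, norm_mul]
    exact mul_le_one₀ (hf.le I) (norm_nonneg _) (hg.le I)
  · rw [Pi.mul_apply, Pi.mul_apply, hf.per a a' b α α' h1 h2 h3 h4, hg.per a a' b α α' h1 h2 h3 h4]

theorem HC.mul_same {q : ℕ} {F G : Ideal (𝓞 K) → ℂ} (hF : HC q F) (hG : HC q G) :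
    HC q (F * G) := by
  refine ⟨norm_pf_mul hF.toPF hG.toPF, ?_, fun I J => ?_, fun I h => hF.cop I (left_ne_zero_of_mul h)⟩
  · rw [Pi.mul_apply, hF.one, hG.one, one_mul]
  · simp only [Pi.mul_apply, hF.mul, hG.mul]
    ring

theorem HC.mul' {q q' : ℕ} {F G : Ideal (𝓞 K) → ℂ} (hF : HC q F) (hG : HC q' G) :
    HC (q * q') (F * G) := by
  have h0 := mul_pos hF.pos hG.pos
  refine ⟨norm_pf_mul (hF.toPF.mono (dvd_mul_right _ _) h0) (hG.toPF.mono (dvd_mul_left _ _) h0),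
    ?_, fun I J => ?_, fun I h => cop_iff.2 (Nat.Coprime.mul_right
      (cop_iff.1 (hF.cop I (left_ne_zero_of_mul h))) (cop_iff.1 (hG.cop I (right_ne_zero_of_mul h))))⟩
  · rw [Pi.mul_apply, hF.one, hG.one, one_mul]
  · simp only [Pi.mul_apply, hF.mul, hG.mul]
    ring

theorem hc_dir {q : ℕ} (hq : 0 < q) (χ : DirichletCharacter ℂ q) : HC q (dir K χ) := by
  refine ⟨⟨hq, fun I => χ.norm_le_one _, fun a a' b α α' h1 h2 h3 h4 => ?_⟩, ?_, fun I J => ?_,
    fun I h => ?_⟩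
  · have e1 := congrArg (fun I => (Ideal.absNorm I : ℤ)) h1
    have e2 := congrArg (fun I => (Ideal.absNorm I : ℤ)) h2
    simp only [map_mul, Ideal.absNorm_span_singleton, Nat.cast_mul, Int.natCast_natAbs] at e1 e2
    have e3 := nm_congr (m := (q * Ideal.absNorm b : ℕ)) (by rwa [Int.cast_natCast])
    have e4 : ((q * Ideal.absNorm b : ℕ) : ℤ) ∣ |nm α| - |nm α'| := by
      rcases pos_and_pos_or_neg_and_neg_of_mul_pos h4 with ⟨p1, p2⟩ | ⟨p1, p2⟩
      · rwa [abs_of_pos p1, abs_of_pos p2]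
      · rw [abs_of_neg p1, abs_of_neg p2, ← neg_sub']
        exact e3.neg_right
    have e5 : (Ideal.absNorm b : ℤ) ≠ 0 := fun h => by
      rw [h, mul_zero, eq_comm, abs_eq_zero] at e1
      rw [nm, e1, zero_mul] at h4
      exact lt_irrefl _ h4
    rw [← e1, ← e2, ← sub_mul, Nat.cast_mul, mul_dvd_mul_iff_right e5,
      ← ZMod.intCast_zmod_eq_zero_iff_dvd, Int.cast_sub, sub_eq_zero, Int.cast_natCast,
      Int.cast_natCast] at e4
    rw [dir, dir, e4]
  · rw [dir, Ideal.absNorm_top, Nat.cast_one, map_one]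
  · rw [dir, dir, dir, map_mul, Nat.cast_mul, map_mul]
  · refine cop_iff.2 ((ZMod.isUnit_iff_coprime _ _).1 ?_)
    by_contra hc
    exact h (χ.map_nonunit hc)

end Pool.Agent.MP_48b1c3_nt.H91
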