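import Pool.Agent.MP_48b1c3_nt.H54.TestFn

/-! Definitions for the sieve lower bound in number fields with a real place. -/

namespace Pool.Agent.MP_48b1c3_nt.H91

open Finset NumberField H54
open scoped ContDiff

/-- smoothed sums -/
noncomputable def sm (a : ℕ → ℂ) (v : ℝ → ℂ) (y : ℝ) : ℂ :=
  ∑ m ∈ Icc 1 ⌊y⌋₊, a m * v (Real.log (m / y))

/-- the complex valued bump function -/
noncomputable def bmp (u : ℝ) : ℂ := (bump u : ℂ)

theorem test_bmp : Test bmp := test_bump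

/-- the derivatives of order at most `k` are bounded by `B` -/
def Db (k : ℕ) (B : ℝ) (v : ℝ → ℂ) : Prop := ∀ j ≤ k, ∀ u, ‖iteratedDeriv j v u‖ ≤ B

/-- `exp (2 π i t)` -/
noncomputable def ec (t : ℝ) : ℂ := Complex.exp (2 * Real.pi * Complex.I * t)

/-- number of divisors -/
noncomputable def tau (m : ℕ) : ℝ := #m.divisors

open scoped Classical in
/-- the primitive characters with conductor in `Q` -/
noncomputable def Xf (Q : Finset ℕ) : Finset (Σ q : ℕ, DirichletCharacter ℂ q) :=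
  Q.sigma fun _ => univ.filter fun χ => χ.IsPrimitive

theorem mem_Xf {Q : Finset ℕ} {i : Σ q : ℕ, DirichletCharacter ℂ q} :
    i ∈ Xf Q ↔ i.1 ∈ Q ∧ i.2.IsPrimitive := by
  simp [Xf]

/-- squarefree moduli in `(D, 2 D]` prime to `M` -/
def Qs (M D : ℕ) : Finset ℕ := (Ioc D (2 * D)).filter fun q => Squarefree q ∧ q.Coprime M

section Lattice

variable {ι : Type} [Fintype ι]

/-- smooth, supported in the cube of radius `R`, derivatives up to order `k` bounded by `B` -/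
structure Nice (R : ℝ) (k : ℕ) (B : ℝ) (g : (ι → ℝ) → ℂ) : Prop where
  smooth : ContDiff ℝ ∞ g
  supp : ∀ x, R < ‖x‖ → g x = 0
  bd : ∀ j ≤ k, ∀ x, ‖iteratedFDeriv ℝ j g x‖ ≤ B

/-- the point `a / H` -/
noncomputable def pt (H : ℝ) (a : ι → ℤ) : ι → ℝ := fun i => a i / H

/-- lattice sums -/
noncomputable def ls (η : (ι → ℤ) → ℂ) (g : (ι → ℝ) → ℂ) (H : ℝ) : ℂ := ∑' a, η a * g (pt H a)

/-- additive characters of the lattice -/
noncomputable def ch (θ : ι → ℝ) (a : ι → ℤ) : ℂ := ec (∑ i, θ i * a i)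

/-- periodic modulo `q` and bounded by one -/
def Pd (q : ℕ) (η : (ι → ℤ) → ℂ) : Prop :=
  (∀ a b, η (a + (q : ℤ) • b) = η a) ∧ ∀ a, ‖η a‖ ≤ 1

open scoped Classical in
/-- the residue system `[0, q) ^ ι` -/
noncomputable def cb (ι : Type) [Fintype ι] (q : ℕ) : Finset (ι → ℤ) :=
  Fintype.piFinset fun _ => Ico (0 : ℤ) q

open scoped Classical in
/-- the symmetric residue system modulo `q` -/
noncomputable def cs (ι : Type) [Fintype ι] (q : ℕ) : Finset (ι → ℤ) :=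
  Fintype.piFinset fun _ => Ico (-((q / 2 : ℕ) : ℤ)) (q - (q / 2 : ℕ))

/-- mean over a period -/
noncomputable def mean (q : ℕ) (η : (ι → ℤ) → ℂ) : ℂ :=
  (∑ a ∈ cb ι q, η a) / (q : ℂ) ^ Fintype.card ι

end Lattice

section Field

variable (K : Type) [Field K] [NumberField K]

/-- index set of the integral basis -/
abbrev Ix := Module.Free.ChooseBasisIndex ℤ (𝓞 K)

/-- the degree -/
noncomputable abbrev dg : ℕ := Module.finrank ℚ K

theorem card_Ix : Fintype.card (Ix K) = dg K := by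
  rw [← Module.finrank_eq_card_chooseBasisIndex, RingOfIntegers.rank]

theorem dg_pos : 0 < dg K := Module.finrank_pos

/-- the integer with given coordinates -/
noncomputable def el : (Ix K → ℤ) ≃ₗ[ℤ] 𝓞 K := (RingOfIntegers.basis K).equivFun.symm

/-- the ideals of norm `m` -/
noncomputable def idN (m : ℕ) : Finset (Ideal (𝓞 K)) :=
  (Ideal.finite_setOfPred_absNorm_eq m).toFinset

theorem mem_idN {m : ℕ} {I : Ideal (𝓞 K)} : I ∈ idN K m ↔ Ideal.absNorm I = m := by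
  simp [idN]

/-- absolute value of the discriminant -/
noncomputable def DD : ℕ := (NumberField.discr K).natAbs

theorem DD_pos : 0 < DD K := Int.natAbs_pos.2 (NumberField.discr_ne_zero K)

/-- the signed norm form on real coordinates -/
noncomputable def sN (x : Ix K → ℝ) : ℝ :=
  Algebra.norm ℝ ((mixedEmbedding.latticeBasis K).equivFun.symm x)

variable {K}

/-- the norm -/
noncomputable abbrev nm (α : 𝓞 K) : ℤ := Algebra.norm ℤ α

/-- sum over the ideals of given norm -/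
noncomputable def push (f : Ideal (𝓞 K) → ℂ) : ArithmeticFunction ℂ :=
  ⟨fun m => if m = 0 then 0 else ∑ I ∈ idN K m, f I, by simp⟩

theorem push_apply (f : Ideal (𝓞 K) → ℂ) {m : ℕ} (hm : m ≠ 0) :
    push f m = ∑ I ∈ idN K m, f I := if_neg hm

open scoped Classical in
/-- the von Mangoldt function on ideals -/
noncomputable def lam (I : Ideal (𝓞 K)) : ℝ :=
  if IsPrimePow I then Real.log (Ideal.absNorm I.radical) else 0

/-- coefficients of the logarithmic derivative -/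
noncomputable def pushL (f : Ideal (𝓞 K) → ℂ) : ArithmeticFunction ℂ :=
  push fun I => lam I * f I

/-- coefficients of the inverse -/
noncomputable def pushM (f : Ideal (𝓞 K) → ℂ) : ArithmeticFunction ℂ :=
  push fun I => (UniqueFactorizationMonoid.moebius I : ℂ) * f I

/-- class representatives -/
noncomputable def rep (c : ClassGroup (𝓞 K)) : Ideal (𝓞 K) :=
  ((ClassGroup.mk0_surjective c).choose : Ideal (𝓞 K))

theorem rep_ne_bot (c : ClassGroup (𝓞 K)) : rep c ≠ ⊥ :=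
  mem_nonZeroDivisors_iff_ne_zero.1 (ClassGroup.mk0_surjective c).choose.2

theorem mk0_rep (c : ClassGroup (𝓞 K)) :
    ClassGroup.mk0 ⟨rep c, mem_nonZeroDivisors_iff_ne_zero.2 (rep_ne_bot c)⟩ = c :=
  (ClassGroup.mk0_surjective c).choose_spec

variable (K) in
/-- product of the norms of the class representatives -/
noncomputable def BB : ℕ := ∏ c : ClassGroup (𝓞 K), Ideal.absNorm (rep c)

variable (K) in
theorem BB_pos : 0 < BB K :=
  prod_pos fun c _ => Nat.pos_of_ne_zero fun h => rep_ne_bot c (Ideal.absNorm_eq_zero_iff.1 h)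

theorem rep_dvd_BB (c : ClassGroup (𝓞 K)) : Ideal.absNorm (rep c) ∣ BB K :=
  dvd_prod_of_mem _ (mem_univ c)

open scoped Classical in
/-- `f ((α) / b)` -/
noncomputable def lift (f : Ideal (𝓞 K) → ℂ) (b : Ideal (𝓞 K)) (α : 𝓞 K) : ℂ :=
  if h : α ≠ 0 ∧ ∃ a, a * b = Ideal.span {α} then f h.2.choose else 0

/-- `I` is prime to `q` -/
def Cop (q : ℕ) (I : Ideal (𝓞 K)) : Prop := I ⊔ Ideal.span {(q : 𝓞 K)} = ⊤

/-- bounded functions on ideals that are periodic modulo `q` in the narrow sense -/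
structure PF (q : ℕ) (f : Ideal (𝓞 K) → ℂ) : Prop where
  pos : 0 < q
  le : ∀ I, ‖f I‖ ≤ 1
  per : ∀ (a a' b : Ideal (𝓞 K)) (α α' : 𝓞 K), a * b = Ideal.span {α} →
    a' * b = Ideal.span {α'} → ((q * Ideal.absNorm b : ℕ) : 𝓞 K) ∣ α - α' → 0 < nm α * nm α' →
      f a = f a'

/-- Hecke characters of finite order modulo `q` -/
structure HC (q : ℕ) (F : Ideal (𝓞 K) → ℂ) : Prop extends PF q F where
  one : F ⊤ = 1
  mul : ∀ I J, F (I * J) = F I * F J
  cop : ∀ I, F I ≠ 0 → Cop q I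

/-- real valued -/
def Rl (F : Ideal (𝓞 K) → ℂ) : Prop := ∀ I, I ≠ ⊥ → (F I).im = 0

/-- the mean value -/
noncomputable def kap (f : Ideal (𝓞 K) → ℂ) : ℂ :=
  Filter.limUnder Filter.atTop fun y : ℝ => sm (push f) bmp y / (y * ∫ u : ℝ, bmp u * Real.exp u)

open scoped Classical in
/-- the entire part of the L-function -/
noncomputable def Ent (f : Ideal (𝓞 K) → ℂ) : ℂ → ℂ :=
  if h : ∃ E : ℂ → ℂ, Differentiable ℂ E ∧
    ∀ s : ℂ, 1 < s.re → LSeries (push f) s = kap f / (s - 1) + E s then h.choose else 0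

/-- families of characters for the theorems of Siegel and Siegel-Walfisz -/
def Fam (S : Set (ℕ × (Ideal (𝓞 K) → ℂ))) : Prop :=
  (∀ p ∈ S, HC p.1 p.2 ∧ BB K ∣ p.1 ∧ kap p.2 = 0) ∧
    ∀ p ∈ S, {p' ∈ S | kap (p.2 * p'.2) ≠ 0}.Finite

variable (K) in
/-- a Dirichlet character composed with the norm -/
noncomputable def dir {q : ℕ} (χ : DirichletCharacter ℂ q) (I : Ideal (𝓞 K)) : ℂ :=
  χ (Ideal.absNorm I)

/-- signs -/
def sg (s : Bool) : ℤ := if s then 1 else -1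

variable (K) in
/-- a smooth fundamental domain for the units -/
structure Geo where
  /-- the cut-off for the sign `s` of the norm -/
  Φ : Bool → (Ix K → ℝ) → ℝ
  /-- a smooth version of the logarithm of the norm -/
  l : (Ix K → ℝ) → ℝ
  /-- the masses -/
  ρ : Bool → ℝ
  /-- radius of the support -/
  R : ℝ
  smΦ : ∀ s, ContDiff ℝ ∞ (Φ s)
  sml : ContDiff ℝ ∞ l
  supp : ∀ s x, R < ‖x‖ → Φ s x = 0
  sgn : ∀ s a (H : ℝ), 0 < H → Φ s (pt H a) ≠ 0 → 0 < sg s * nm (el K a)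
  orbit : ∀ v, Test v → ∀ H : ℝ, 0 < H → ∀ α : 𝓞 K, α ≠ 0 →
    HasSum (fun u : (𝓞 K)ˣ => ∑ s, (Φ s (pt H ((el K).symm (u * α))) : ℂ) *
      v (l (pt H ((el K).symm (u * α))))) (v (Real.log (|(nm α : ℝ)| / H ^ dg K)))
  integ : ∀ v, Test v → ∀ s, ∫ x, (Φ s x : ℂ) * v (l x) = ρ s * ∫ u : ℝ, v u * Real.exp u

/-- the weight attached to a test function -/
noncomputable def Geo.g (G : Geo K) (v : ℝ → ℂ) (s : Bool) (x : Ix K → ℝ) : ℂ :=
  G.Φ s x * v (G.l x)

/-- the scale for the class `c` -/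
noncomputable def Hc (y : ℝ) (c : ClassGroup (𝓞 K)) : ℝ :=
  (y * Ideal.absNorm (rep c)) ^ (1 / (dg K : ℝ))

/-- `β` lists the dual lattice, scaled by the discriminant -/
def Dual (β : (Ix K → ℤ) →ₗ[ℤ] 𝓞 K) : Prop :=
  ∀ h a, Algebra.trace ℤ (𝓞 K) (β h * el K a) = DD K * ∑ i, h i * a i

variable (K) in
/-- the von Mangoldt function of `K` on the integers -/
noncomputable def lamK (m : ℕ) : ℝ := if m = 0 then 0 else ∑ I ∈ idN K m, lam I

end Field

section Sieve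

/-- the primes below `w` that do not divide `M` -/
noncomputable def Pw (M : ℕ) (w : ℝ) : Finset ℕ :=
  (range ⌈w⌉₊).filter fun p => p.Prime ∧ ¬ p ∣ M

theorem mem_Pw {M p : ℕ} {w : ℝ} : p ∈ Pw M w ↔ (p : ℝ) < w ∧ p.Prime ∧ ¬ p ∣ M := by
  simp [Pw, Nat.lt_ceil]

/-- the density -/
noncomputable def gg (p : ℕ) : ℝ := 1 / ((p : ℝ) - 1)

/-- the sieve product -/
noncomputable def VV (M : ℕ) (w : ℝ) : ℝ := ∏ p ∈ Pw M w, (1 - gg p)

/-- density of a set of primes -/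
noncomputable def ge (e : Finset ℕ) : ℝ := ∏ p ∈ e, gg p

/-- product of a set of primes -/
noncomputable def pe (e : Finset ℕ) : ℝ := ∏ p ∈ e, (p : ℝ)

/-- sieve problems for `n - 1` -/
structure SP where
  /-- the support -/
  Ω : Finset ℕ
  /-- the weights -/
  a : ℕ → ℝ
  /-- the expected mass -/
  X : ℝ
  /-- the level -/
  D : ℝ
  ha : ∀ n, 0 ≤ a n
  hX : 0 ≤ X

/-- mass of the `n` with `e ∣ n - 1` -/
noncomputable def SP.cnt (A : SP) (e : Finset ℕ) : ℝ :=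
  ∑ n ∈ A.Ω.filter fun n => ∀ p ∈ e, p ∣ n - 1, A.a n

/-- the sifting function -/
noncomputable def SP.S (A : SP) (M : ℕ) (e : Finset ℕ) (w : ℝ) : ℝ :=
  ∑ n ∈ A.Ω.filter fun n => (∀ p ∈ e, p ∣ n - 1) ∧ ∀ p ∈ Pw M w, ¬ p ∣ n - 1, A.a n

/-- the remainder sum -/
noncomputable def SP.R (A : SP) (M : ℕ) (e : Finset ℕ) (w : ℝ) : ℝ :=
  ∑ d ∈ (Pw M w).powerset.filter fun d => pe d * pe e ≤ A.D,
    64 ^ #d * |A.cnt (d ∪ e) - A.X * ge (d ∪ e)|

/-- the expected order of magnitude -/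
noncomputable def SP.E (A : SP) (M : ℕ) (e : Finset ℕ) (w : ℝ) : ℝ := A.X * ge e * VV M w

/-- admissible sets of primes -/
def Adm (M : ℕ) (e : Finset ℕ) (w : ℝ) : Prop := ∀ p ∈ e, p.Prime ∧ ¬ p ∣ M ∧ w ≤ p

/-- the crude upper bound beyond the level -/
def SP.H (A : SP) (M : ℕ) (C : ℝ) : Prop :=
  ∀ e w, Adm M e w → 2 ≤ w → w ≤ A.D → pe e ^ 2 ≤ A.D ^ 3 → A.S M e w ≤ C * A.E M e w

/-- `c` is an upper sieve constant at `s` -/
def Up (M : ℕ) (C s c : ℝ) : Prop :=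
  ∀ ε : ℝ, 0 < ε → ∃ L z₀ : ℝ, 0 ≤ L ∧ ∀ A : SP, A.H M C → ∀ e z, z₀ ≤ z → Adm M e z →
    z ^ s * pe e ≤ A.D → A.S M e z ≤ (c + ε) * A.E M e z + L * A.R M e z

/-- `c` is a lower sieve constant at `s` -/
def Lo (M : ℕ) (C s c : ℝ) : Prop :=
  ∀ ε : ℝ, 0 < ε → ∃ L z₀ : ℝ, 0 ≤ L ∧ ∀ A : SP, A.H M C → ∀ e z, z₀ ≤ z → Adm M e z →
    z ^ s * pe e ≤ A.D → (c - ε) * A.E M e z - L * A.R M e z ≤ A.S M e z

/-- the primes `p ≤ x` with `p ≡ a₀` modulo `M` -/
noncomputable def Om (M a₀ : ℕ) (x : ℝ) : Finset ℕ :=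
  (Icc 1 ⌊x⌋₊).filter fun p => p.Prime ∧ p ≡ a₀ [MOD M]

/-- the sieve problem attached to the weights `L` -/
noncomputable def prob (L : ℕ → ℝ) (M a₀ : ℕ) (x D : ℝ) : SP where
  Ω := Om M a₀ x
  a n := |L n| * bump (Real.log (n / x))
  X := ∑ n ∈ Om M a₀ x, |L n| * bump (Real.log (n / x))
  D := D
  ha _ := mul_nonneg (abs_nonneg _) bump.nonneg
  hX := sum_nonneg fun _ _ => mul_nonneg (abs_nonneg _) bump.nonneg

end Sieve

/-- many primes of degree one in `K`, in a class of norms, with `p - 1` free of primes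
up to `x ^ α` that do not divide the modulus, for some `α > β` -/
def Core (K : Type) [Field K] [NumberField K] (β : ℝ) : Prop :=
  ∃ w₀ : ℕ, ∀ (M : ℕ) (I₀ : Ideal (𝓞 K)), 0 < M → (∀ l : ℕ, l.Prime → l ≤ w₀ → l ∣ M) →
    (Ideal.absNorm I₀).Coprime M → ∃ α c : ℝ, β < α ∧ 0 < c ∧ ∀ᶠ x : ℝ in Filter.atTop,
      c * x / Real.log x ^ 2 ≤ Set.ncard {p : ℕ | p.Prime ∧ (p : ℝ) ≤ x ∧
        p ≡ Ideal.absNorm I₀ [MOD M] ∧ (∃ I : Ideal (𝓞 K), Ideal.absNorm I = p) ∧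
          ∀ l : ℕ, l.Prime → l ∣ p - 1 → l ∣ M ∨ x ^ α < l}

end Pool.Agent.MP_48b1c3_nt.H91
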