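import Mathlib

/-! Definitions for the statements on Euclidean ideals. -/

namespace Pool.Agent.MP_48b1c3_nt.H91

open NumberField
open scoped nonZeroDivisors

/-- Euclidean ideals in the sense of Lenstra (1979), with values in the natural numbers. -/
def EuclideanIdeal {R : Type} [CommRing R] [IsDedekindDomain R]
    (C : FractionalIdeal R⁰ (FractionRing R)) : Prop :=
  ∃ ψ : FractionalIdeal R⁰ (FractionRing R) → ℕ, ∀ b : FractionalIdeal R⁰ (FractionRing R),
    1 ≤ b → ∀ x ∈ b * C, x ∉ C → ∃ y ∈ C,
      ψ ((FractionalIdeal.spanSingleton R⁰ (x + y))⁻¹ * b * C) < ψ b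

/-- The cyclotomic part of Lenstra's criterion for the class of `C`: for each modulus `M` some
ideal `I` of `𝓞 K` that extends to the class of `C` has norm prime to `M`, and
`gcd (N I - 1, M)` divides the number of roots of unity of `K`. -/
def CycLocal (K : Type) [Field K] [NumberField K] {R : Type} [CommRing R] [Algebra (𝓞 K) R]
    (C : Ideal R) : Prop :=
  ∀ M : ℕ, 0 < M → ∃ (I : Ideal (𝓞 K)) (α β : R), α ≠ 0 ∧ β ≠ 0 ∧
    Ideal.span {α} * I.map (algebraMap (𝓞 K) R) = Ideal.span {β} * C ∧
    (Ideal.absNorm I).Coprime M ∧ Nat.gcd (Ideal.absNorm I - 1) M ∣ Units.torsionOrder K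

/-- Every nonzero ideal of `R` whose class generates the class group and satisfies `CycLocal` is
Euclidean. -/
def GeneratorsEuclidean (K : Type) [Field K] [NumberField K] (R : Type) [CommRing R]
    [IsDedekindDomain R] [Algebra (𝓞 K) R] : Prop :=
  ∀ C : (Ideal R)⁰, Subgroup.zpowers (ClassGroup.mk0 C) = ⊤ → CycLocal K (C : Ideal R) →
    EuclideanIdeal ((C : Ideal R) : FractionalIdeal R⁰ (FractionRing R))

end Pool.Agent.MP_48b1c3_nt.H91
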